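import Mathlib

set_option autoImplicit false

namespace Pool.Agent.Lib.MP_1375b8_an

/-! General facts on sequences `Y : ℤ → ℝ` with
`Y k = Y (k-1) - w (k/2) * Y (k/2)` for `k ≥ 2`, where `w n ≥ c > 0` for `n ≥ 1`. -/

/-- the recursion -/
def Rec (Y w : ℤ → ℝ) : Prop := ∀ k : ℤ, 2 ≤ k → Y k = Y (k - 1) - w (k / 2) * Y (k / 2)

theorem Rec.neg {Y w : ℤ → ℝ} (h : Rec Y w) : Rec (fun n => - Y n) w := by
  intro k hk
  have := h k hk
  simp only [this]
  ring

section runs

variable {Y w : ℤ → ℝ} (hR : Rec Y w) (hw : ∀ n : ℤ, 1 ≤ n → 0 < w n)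
include hR hw

theorem anti_of_pos (a b : ℤ) (ha : 1 ≤ a) (hpos : ∀ n, a ≤ n → n ≤ b → 0 < Y n) :
    ∀ j k : ℤ, 2 * a - 1 ≤ j → j < k → k ≤ 2 * b + 1 → Y k < Y j := by
  intro j k hj hjk hk
  have step : ∀ m : ℤ, 2 * a ≤ m → m ≤ 2 * b + 1 → Y m < Y (m - 1) := by
    intro m hm1 hm2
    rw [hR m (by omega)]
    have h1 := hpos (m / 2) (by omega) (by omega)
    have h2 := hw (m / 2) (by omega)
    have := mul_pos h2 h1
    linarith
  have key : ∀ d : ℕ, ∀ j : ℤ, 2 * a - 1 ≤ j → j + 1 + d ≤ 2 * b + 1 → Y (j + 1 + d) < Y j := by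
    intro d
    induction d with
    | zero =>
      intro j h1 h2
      have := step (j + 1) (by omega) (by simpa using h2)
      simpa using this
    | succ d ih =>
      intro j h1 h2
      have h3 := ih j h1 (by push_cast at h2 ⊢; omega)
      have h4 := step (j + 1 + ((d + 1 : ℕ) : ℤ)) (by push_cast; omega) (by omega)
      have e : j + 1 + ((d + 1 : ℕ) : ℤ) - 1 = j + 1 + d := by push_cast; ring
      rw [e] at h4
      linarith
  obtain ⟨d, hd⟩ := Int.le.dest (show j + 1 ≤ k by omega)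
  have := key d j hj (by omega)
  rwa [hd] at this

/-- One step for the length of runs of constant strict sign (positive case). -/
theorem longer_of_pos (a b : ℤ) (ha : 1 ≤ a) (hab : a ≤ b) (hpos : ∀ n, a ≤ n → n ≤ b → 0 < Y n) :
    ∃ a' b' : ℤ, 1 ≤ a' ∧ a' + (b - a) + 1 ≤ b' ∧
      ((∀ n, a' ≤ n → n ≤ b' → 0 < Y n) ∨ (∀ n, a' ≤ n → n ≤ b' → Y n < 0)) := by
  have hanti := anti_of_pos hR hw a b ha hpos
  rcases lt_trichotomy (Y (a + b)) 0 with hs | hs | hs
  · -- negative at the middle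
    refine ⟨a + b, 2 * b + 1, by omega, by omega, Or.inr ?_⟩
    intro n h1 h2
    rcases h1.eq_or_lt with rfl | h1
    · exact hs
    · exact lt_trans (hanti (a + b) n (by omega) h1 h2) hs
  · -- zero at the middle
    have hpos1 : ∀ n, 2 * a - 1 ≤ n → n ≤ a + b - 1 → 0 < Y n := by
      intro n h1 h2
      have := hanti n (a + b) (by omega) (by omega) (by omega)
      linarith
    have hneg1 : ∀ n, a + b + 1 ≤ n → n ≤ 2 * b + 1 → Y n < 0 := by
      intro n h1 h2
      have := hanti (a + b) n (by omega) (by omega) (by omega)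
      linarith
    have hanti2 := anti_of_pos hR hw (2 * a - 1) (a + b - 1) (by omega) hpos1
    have e1 : Y (2 * (a + b)) = Y (2 * (a + b) - 1) := by
      rw [hR (2 * (a + b)) (by omega)]
      have : (2 * (a + b)) / 2 = a + b := by omega
      rw [this, hs]; ring
    have e2 : Y (2 * (a + b) + 1) = Y (2 * (a + b) - 1) := by
      rw [hR (2 * (a + b) + 1) (by omega)]
      have : (2 * (a + b) + 1) / 2 = a + b := by omega
      rw [this, hs]
      have : 2 * (a + b) + 1 - 1 = 2 * (a + b) := by ring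
      rw [this, e1]; ring
    by_cases hk : 0 ≤ Y (2 * (a + b) - 1)
    · refine ⟨4 * a - 3, 2 * (a + b) - 2, by omega, by omega, Or.inl ?_⟩
      intro n h1 h2
      have := hanti2 n (2 * (a + b) - 1) (by omega) (by omega) (by omega)
      linarith
    · push Not at hk
      by_cases ht : 0 < Y (2 * (a + b) - 1 - (b - a + 1))
      · refine ⟨4 * a - 3, 2 * (a + b) - 1 - (b - a + 1), by omega, by omega, Or.inl ?_⟩
        intro n h1 h2
        rcases h2.eq_or_lt with rfl | h2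
        · exact ht
        · have := hanti2 n (2 * (a + b) - 1 - (b - a + 1)) (by omega) h2 (by omega)
          linarith
      · push Not at ht
        refine ⟨2 * (a + b) - (b - a + 1), 2 * (a + b) + 1, by omega, by omega, Or.inr ?_⟩
        intro n h1 h2
        by_cases h3 : n ≤ 2 * (a + b) - 1
        · have := hanti2 (2 * (a + b) - 1 - (b - a + 1)) n (by omega) (by omega) (by omega)
          linarith
        · have h4 : n = 2 * (a + b) ∨ n = 2 * (a + b) + 1 := by omega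
          rcases h4 with rfl | rfl
          · rw [e1]; exact hk
          · rw [e2]; exact hk
  · -- positive at the middle
    refine ⟨2 * a - 1, a + b, by omega, by omega, Or.inl ?_⟩
    intro n h1 h2
    rcases h2.eq_or_lt with rfl | h2
    · exact hs
    · exact lt_trans hs (hanti n (a + b) h1 h2 (by omega))

end runs

theorem longer {Y w : ℤ → ℝ} (hR : Rec Y w) (hw : ∀ n : ℤ, 1 ≤ n → 0 < w n)
    (a b : ℤ) (ha : 1 ≤ a) (hab : a ≤ b)
    (h : (∀ n, a ≤ n → n ≤ b → 0 < Y n) ∨ (∀ n, a ≤ n → n ≤ b → Y n < 0)) :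
    ∃ a' b' : ℤ, 1 ≤ a' ∧ a' + (b - a) + 1 ≤ b' ∧
      ((∀ n, a' ≤ n → n ≤ b' → 0 < Y n) ∨ (∀ n, a' ≤ n → n ≤ b' → Y n < 0)) := by
  rcases h with h | h
  · exact longer_of_pos hR hw a b ha hab h
  · obtain ⟨a', b', h1, h2, h3⟩ := longer_of_pos hR.neg hw a b ha hab
      (fun n h1 h2 => by have := h n h1 h2; show 0 < - Y n; linarith)
    refine ⟨a', b', h1, h2, ?_⟩
    rcases h3 with h3 | h3
    · right; intro n h4 h5; have : 0 < - Y n := h3 n h4 h5; linarith
    · left; intro n h4 h5; have : - Y n < 0 := h3 n h4 h5; linarith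

/-- arbitrarily long runs of constant strict sign -/
theorem long_runs {Y w : ℤ → ℝ} (hR : Rec Y w) (hw : ∀ n : ℤ, 1 ≤ n → 0 < w n) (h1 : Y 1 ≠ 0)
    (N : ℕ) : ∃ a b : ℤ, 1 ≤ a ∧ a + N ≤ b ∧
      ((∀ n, a ≤ n → n ≤ b → 0 < Y n) ∨ (∀ n, a ≤ n → n ≤ b → Y n < 0)) := by
  induction N with
  | zero =>
    refine ⟨1, 1, le_refl _, by simp, ?_⟩
    rcases lt_or_gt_of_ne h1 with h | h
    · right; intro n h2 h3
      have : n = 1 := by omega
      rw [this]; exact h
    · left; intro n h2 h3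
      have : n = 1 := by omega
      rw [this]; exact h
  | succ N ih =>
    obtain ⟨a, b, ha, hab, h⟩ := ih
    obtain ⟨a', b', ha', hab', h'⟩ := longer hR hw a b ha (by omega) h
    exact ⟨a', b', ha', by push_cast; omega, h'⟩

/-! ### Counting sign changes -/

/-- `f` has constant weak sign on every `[u,v] ⊆ [A,B]` not separated by a cut
(`z` cuts between `z` and `z+1`). -/
def SC (f : ℤ → ℝ) (A B : ℤ) (Z : Finset ℤ) : Prop :=
  ∀ u v, A ≤ u → u ≤ v → v ≤ B → (∀ z ∈ Z, ¬ (u ≤ z ∧ z < v)) →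
    ((∀ n, u ≤ n → n ≤ v → 0 ≤ f n) ∨ (∀ n, u ≤ n → n ≤ v → f n ≤ 0))

/-- `f` is monotone or antitone on every `[u,v] ⊆ [A,B]` without turning site inside. -/
def MC (f : ℤ → ℝ) (A B : ℤ) (Z : Finset ℤ) : Prop :=
  ∀ u v, A ≤ u → u ≤ v → v ≤ B → (∀ z ∈ Z, ¬ (u < z ∧ z < v)) →
    ((∀ m n, u ≤ m → m ≤ n → n ≤ v → f m ≤ f n) ∨ (∀ m n, u ≤ m → m ≤ n → n ≤ v → f n ≤ f m))

theorem SC.neg {f : ℤ → ℝ} {A B : ℤ} {Z : Finset ℤ} (h : SC f A B Z) :
    SC (fun n => - f n) A B Z := by
  intro u v h1 h2 h3 h4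
  rcases h u v h1 h2 h3 h4 with h | h
  · right; intro n h5 h6; have := h n h5 h6; show - f n ≤ 0; linarith
  · left; intro n h5 h6; have := h n h5 h6; show 0 ≤ - f n; linarith

theorem extend_aux (f : ℤ → ℝ) (A e B : ℤ) (Z : Finset ℤ) (hAe : A ≤ e) (heB : e ≤ B)
    (hSC : SC f A e Z)
    (hmono : (∀ m n, e ≤ m → m ≤ n → n ≤ B → f m ≤ f n) ∨
      (∀ m n, e ≤ m → m ≤ n → n ≤ B → f n ≤ f m))
    (hL : ∀ u, A ≤ u → u ≤ e → (∀ z ∈ Z, ¬ (u ≤ z ∧ z < e)) → ∀ n, u ≤ n → n ≤ e → 0 ≤ f n) :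
    ∃ z, SC f A B (insert z Z) := by
  have hfe : 0 ≤ f e := hL e hAe le_rfl (fun z _ h => by omega) e le_rfl le_rfl
  rcases hmono with hm | hm
  · refine ⟨B, ?_⟩
    intro u v h1 h2 h3 h4
    by_cases hv : v ≤ e
    · exact hSC u v h1 h2 hv (fun z hz => h4 z (Finset.mem_insert_of_mem hz))
    · push Not at hv
      left
      intro n h5 h6
      by_cases hn : n ≤ e
      · exact hL u h1 (by omega) (fun z hz h => h4 z (Finset.mem_insert_of_mem hz) ⟨h.1, by omega⟩)
          n h5 hn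
      · have := hm e n le_rfl (by omega) (by omega)
        linarith
  · -- antitone: cut at the last nonnegative site
    have hne : ((Finset.Icc e B).filter (fun n => 0 ≤ f n)).Nonempty :=
      ⟨e, by simp only [Finset.mem_filter, Finset.mem_Icc]; exact ⟨⟨le_rfl, heB⟩, hfe⟩⟩
    set z := ((Finset.Icc e B).filter (fun n => 0 ≤ f n)).max' hne with hz
    have hzmem := Finset.max'_mem _ hne
    rw [← hz] at hzmem
    simp only [Finset.mem_filter, Finset.mem_Icc] at hzmem
    have hzmax : ∀ n, e ≤ n → n ≤ B → 0 ≤ f n → n ≤ z := by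
      intro n h1 h2 h3
      apply Finset.le_max'
      simp only [Finset.mem_filter, Finset.mem_Icc]
      exact ⟨⟨h1, h2⟩, h3⟩
    refine ⟨z, ?_⟩
    intro u v h1 h2 h3 h4
    by_cases hv : v ≤ e
    · exact hSC u v h1 h2 hv (fun z' hz' => h4 z' (Finset.mem_insert_of_mem hz'))
    · push Not at hv
      have h5 := h4 z (Finset.mem_insert_self _ _)
      by_cases hvz : v ≤ z
      · left
        intro n h6 h7
        by_cases hn : n ≤ e
        · exact hL u h1 (by omega)
            (fun z hz h => h4 z (Finset.mem_insert_of_mem hz) ⟨h.1, by omega⟩) n h6 hn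
        · have := hm n z (by omega) (by omega) hzmem.1.2
          linarith [hzmem.2]
      · right
        intro n h6 h7
        by_contra hcon
        push Not at hcon
        have := hzmax n (by omega) (by omega) hcon.le
        omega

theorem extend (f : ℤ → ℝ) (A e B : ℤ) (Z : Finset ℤ) (hAe : A ≤ e) (heB : e ≤ B)
    (hSC : SC f A e Z)
    (hmono : (∀ m n, e ≤ m → m ≤ n → n ≤ B → f m ≤ f n) ∨
      (∀ m n, e ≤ m → m ≤ n → n ≤ B → f n ≤ f m)) :
    ∃ z, SC f A B (insert z Z) := by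
  by_cases hL : ∀ u, A ≤ u → u ≤ e → (∀ z ∈ Z, ¬ (u ≤ z ∧ z < e)) →
      ∀ n, u ≤ n → n ≤ e → 0 ≤ f n
  · exact extend_aux f A e B Z hAe heB hSC hmono hL
  · push Not at hL
    obtain ⟨u0, h1, h2, h3, n0, h4, h5, h6⟩ := hL
    have hL' : ∀ u, A ≤ u → u ≤ e → (∀ z ∈ Z, ¬ (u ≤ z ∧ z < e)) →
      ∀ n, u ≤ n → n ≤ e → 0 ≤ - f n := by
      intro u g1 g2 g3 n g4 g5
      by_cases huu : u ≤ u0
      · rcases hSC u e g1 g2 le_rfl g3 with h | h
        · exact absurd (h n0 (by omega) h5) (not_le.2 h6)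
        · have := h n g4 g5; linarith
      · rcases hSC u0 e h1 h2 le_rfl (fun z hz h => by have := h3 z hz h.1; omega) with h | h
        · exact absurd (h n0 h4 h5) (not_le.2 h6)
        · have := h n (by omega) g5; linarith
    obtain ⟨z, hz⟩ := extend_aux (fun n => - f n) A e B Z hAe heB hSC.neg
      (by
        rcases hmono with h | h
        · right; intro m n a1 a2 a3; have := h m n a1 a2 a3; show - f n ≤ - f m; linarith
        · left; intro m n a1 a2 a3; have := h m n a1 a2 a3; show - f m ≤ - f n; linarith)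
      hL'
    refine ⟨z, ?_⟩
    have := hz.neg
    simpa using this

theorem SC_of_MC (f : ℤ → ℝ) (A : ℤ) : ∀ (k : ℕ) (Z : Finset ℤ) (B : ℤ), Z.card = k → A ≤ B →
    MC f A B Z → ∃ Z' : Finset ℤ, Z'.card ≤ k + 1 ∧ SC f A B Z' := by
  intro k
  induction k with
  | zero =>
    intro Z B hZ hAB hM
    have hZ' : Z = ∅ := Finset.card_eq_zero.1 hZ
    subst hZ'
    have hsc : SC f A A ∅ := by
      intro u v h1 h2 h3 _
      rcases le_total 0 (f A) with h | h
      · left; intro n h5 h6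
        have : n = A := by omega
        rw [this]; exact h
      · right; intro n h5 h6
        have : n = A := by omega
        rw [this]; exact h
    obtain ⟨z, hz⟩ := extend f A A B ∅ le_rfl hAB hsc (hM A B le_rfl hAB le_rfl (by simp))
    exact ⟨insert z ∅, by simp, hz⟩
  | succ k ih =>
    intro Z B hZ hAB hM
    have hne : Z.Nonempty := by rw [← Finset.card_pos]; omega
    set e := Z.max' hne with he
    have hemem : e ∈ Z := Finset.max'_mem _ _
    have hemax : ∀ z ∈ Z, z ≤ e := fun z hz => Finset.le_max' _ _ hz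
    have hcard : (Z.erase e).card = k := by rw [Finset.card_erase_of_mem hemem]; omega
    by_cases hcase : A < e ∧ e < B
    · have hM1 : MC f A e (Z.erase e) := by
        intro u v h1 h2 h3 h4
        refine hM u v h1 h2 (by omega) (fun z hz => ?_)
        by_cases hze : z = e
        · subst hze; omega
        · exact h4 z (Finset.mem_erase.2 ⟨hze, hz⟩)
      obtain ⟨Z1, hc1, hs1⟩ := ih (Z.erase e) e hcard (by omega) hM1
      obtain ⟨z, hz⟩ := extend f A e B Z1 (by omega) (by omega) hs1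
        (hM e B (by omega) (by omega) le_rfl (fun z hz h => by have := hemax z hz; omega))
      refine ⟨insert z Z1, ?_, hz⟩
      exact le_trans (Finset.card_insert_le _ _) (by omega)
    · have hM1 : MC f A B (Z.erase e) := by
        intro u v h1 h2 h3 h4
        refine hM u v h1 h2 (by omega) (fun z hz => ?_)
        by_cases hze : z = e
        · subst hze; omega
        · exact h4 z (Finset.mem_erase.2 ⟨hze, hz⟩)
      obtain ⟨Z1, hc1, hs1⟩ := ih (Z.erase e) B hcard hAB hM1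
      exact ⟨Z1, by omega, hs1⟩

theorem MC_of_SC {Y w : ℤ → ℝ} (hR : Rec Y w) (hw : ∀ n : ℤ, 1 ≤ n → 0 < w n) (A B : ℤ)
    (hA : 1 ≤ A) (Z : Finset ℤ) (h : SC Y A B Z) :
    MC Y (2 * A - 1) (2 * B + 1) (Z.image (fun z => 2 * z + 1)) := by
  intro u v h1 h2 h3 h4
  rcases h2.eq_or_lt with h2 | h2
  · subst h2
    left
    intro m n a1 a2 a3
    have : m = n := by omega
    rw [this]
  have hcut : ∀ z ∈ Z, ¬ ((u + 1) / 2 ≤ z ∧ z < v / 2) := by
    intro z hz hc
    exact h4 (2 * z + 1) (Finset.mem_image_of_mem _ hz) (by omega)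
  have general : ∀ s : ℝ, (∀ n, (u + 1) / 2 ≤ n → n ≤ v / 2 → 0 ≤ s * Y n) →
      ∀ (d : ℕ) (m : ℤ), u ≤ m → m + d ≤ v → s * Y (m + d) ≤ s * Y m := by
    intro s hs d
    induction d with
    | zero => intro m _ _; simp
    | succ d ih =>
      intro m g1 g2
      have g3 := ih m g1 (by push_cast at g2; omega)
      have g4 := hR (m + ((d + 1 : ℕ) : ℤ)) (by push_cast; omega)
      have g5 := hs ((m + ((d + 1 : ℕ) : ℤ)) / 2) (by push_cast; omega) (by omega)
      have g6 := hw ((m + ((d + 1 : ℕ) : ℤ)) / 2) (by push_cast; omega)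
      have e : m + ((d + 1 : ℕ) : ℤ) - 1 = m + d := by push_cast; ring
      rw [g4, e]
      have := mul_nonneg g6.le g5
      nlinarith
  rcases h ((u + 1) / 2) (v / 2) (by omega) (by omega) (by omega) hcut with hpos | hneg
  · right
    intro m n a1 a2 a3
    obtain ⟨d, hd⟩ := Int.le.dest a2
    have := general 1 (fun n b1 b2 => by rw [one_mul]; exact hpos n b1 b2) d m a1 (by omega)
    rw [hd] at this
    linarith
  · left
    intro m n a1 a2 a3
    obtain ⟨d, hd⟩ := Int.le.dest a2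
    have := general (-1) (fun n b1 b2 => by have := hneg n b1 b2; linarith) d m a1 (by omega)
    rw [hd] at this
    linarith

/-- cuts at level `i` -/
theorem cuts {Y w : ℤ → ℝ} (hR : Rec Y w) (hw : ∀ n : ℤ, 1 ≤ n → 0 < w n) (a b : ℤ) (ha : 1 ≤ a)
    (hab : a ≤ b)
    (h : (∀ n, a ≤ n → n ≤ b → 0 < Y n) ∨ (∀ n, a ≤ n → n ≤ b → Y n < 0)) (i : ℕ) :
    ∃ Z : Finset ℤ, Z.card ≤ i ∧ SC Y (2 ^ i * (a - 1) + 1) (2 ^ i * (b + 1) - 1) Z := by
  induction i with
  | zero =>
    refine ⟨∅, by simp, ?_⟩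
    intro u v h1 h2 h3 _
    simp only [pow_zero, one_mul] at h1 h3
    rcases h with h | h
    · left; intro n g1 g2; exact (h n (by omega) (by omega)).le
    · right; intro n g1 g2; exact (h n (by omega) (by omega)).le
  | succ i ih =>
    obtain ⟨Z, hc, hs⟩ := ih
    have hp : (1 : ℤ) ≤ 2 ^ i := one_le_pow₀ (by norm_num)
    have hA : (1 : ℤ) ≤ 2 ^ i * (a - 1) + 1 := by
      have : (0 : ℤ) ≤ 2 ^ i * (a - 1) := mul_nonneg (by omega) (by omega)
      omega
    have hM := MC_of_SC hR hw _ _ hA Z hs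
    have e1 : 2 * (2 ^ i * (a - 1) + 1) - 1 = 2 ^ (i + 1) * (a - 1) + 1 := by ring
    have e2 : 2 * (2 ^ i * (b + 1) - 1) + 1 = 2 ^ (i + 1) * (b + 1) - 1 := by ring
    rw [e1, e2] at hM
    have hAB : (2 : ℤ) ^ (i + 1) * (a - 1) + 1 ≤ 2 ^ (i + 1) * (b + 1) - 1 := by
      have hp' : (1 : ℤ) ≤ 2 ^ (i + 1) := one_le_pow₀ (by norm_num)
      nlinarith
    obtain ⟨Z', hc', hs'⟩ := SC_of_MC Y _ _ _ _ rfl hAB hM
    refine ⟨Z', ?_, hs'⟩
    have := Finset.card_image_le (s := Z) (f := fun z : ℤ => 2 * z + 1)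
    omega

end Pool.Agent.Lib.MP_1375b8_an
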