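import Mathlib
import Pool.Agent.Lib.MP_1375b8_an.Basic

set_option autoImplicit false

namespace Pool.Agent.Lib.MP_1375b8_an

theorem sum_div_two_pow (n : ℕ) :
    ∑ i ∈ Finset.range n, (i : ℝ) / 2 ^ i = 2 - 2 * (n + 1) / 2 ^ n := by
  induction n with
  | zero => simp
  | succ n ih =>
    rw [Finset.sum_range_succ, ih]
    have : (2 : ℝ) ^ n ≠ 0 := by positivity
    field_simp
    push_cast
    ring

/-- A centre far away from all cuts at all levels. -/
theorem exists_center (J : ℕ) (Z : ℕ → Finset ℤ) (hZ : ∀ i, (Z i).card ≤ i) (Λ p q : ℝ)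
    (hΛ : 0 < Λ) (hpq : 4 * Λ < q - p) :
    ∃ x : ℝ, p ≤ x ∧ x ≤ q ∧ ∀ i, i ≤ J → ∀ z ∈ Z i, Λ ≤ |2 ^ i * x - ((z : ℝ) + 1 / 2)| := by
  by_contra hcon
  push Not at hcon
  have hsub : Set.Icc p q ⊆ ⋃ i ∈ Finset.range (J + 1), ⋃ z ∈ Z i,
      Set.Ioo ((((z : ℤ) : ℝ) + 1 / 2 - Λ) / 2 ^ i) ((((z : ℤ) : ℝ) + 1 / 2 + Λ) / 2 ^ i) := by
    intro x hx
    obtain ⟨i, hi, z, hz, hlt⟩ := hcon x hx.1 hx.2
    simp only [Set.mem_iUnion]
    refine ⟨i, Finset.mem_range.2 (by omega), z, hz, ?_⟩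
    have hp : (0 : ℝ) < 2 ^ i := by positivity
    rw [abs_lt] at hlt
    constructor
    · rw [div_lt_iff₀ hp]; nlinarith [hlt.1]
    · rw [lt_div_iff₀ hp]; nlinarith [hlt.2]
  have hvol := MeasureTheory.measure_mono (μ := MeasureTheory.volume) hsub
  have h1 : MeasureTheory.volume (⋃ i ∈ Finset.range (J + 1), ⋃ z ∈ Z i,
      Set.Ioo ((((z : ℤ) : ℝ) + 1 / 2 - Λ) / 2 ^ i) ((((z : ℤ) : ℝ) + 1 / 2 + Λ) / 2 ^ i))
      ≤ ENNReal.ofReal (4 * Λ) := by
    calc _ ≤ ∑ i ∈ Finset.range (J + 1), MeasureTheory.volume (⋃ z ∈ Z i,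
            Set.Ioo ((((z : ℤ) : ℝ) + 1 / 2 - Λ) / 2 ^ i) ((((z : ℤ) : ℝ) + 1 / 2 + Λ) / 2 ^ i)) :=
          MeasureTheory.measure_biUnion_finset_le _ _
      _ ≤ ∑ i ∈ Finset.range (J + 1), ENNReal.ofReal ((i : ℝ) * (2 * Λ / 2 ^ i)) := by
          refine Finset.sum_le_sum fun i _ => ?_
          calc _ ≤ ∑ z ∈ Z i, MeasureTheory.volume (Set.Ioo ((((z : ℤ) : ℝ) + 1 / 2 - Λ) / 2 ^ i)
                ((((z : ℤ) : ℝ) + 1 / 2 + Λ) / 2 ^ i)) :=
                MeasureTheory.measure_biUnion_finset_le _ _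
            _ = ∑ z ∈ Z i, ENNReal.ofReal (2 * Λ / 2 ^ i) := by
                refine Finset.sum_congr rfl fun z _ => ?_
                rw [Real.volume_Ioo]
                congr 1
                ring
            _ = ((Z i).card : ENNReal) * ENNReal.ofReal (2 * Λ / 2 ^ i) := by
                rw [Finset.sum_const, nsmul_eq_mul]
            _ ≤ ENNReal.ofReal ((i : ℝ) * (2 * Λ / 2 ^ i)) := by
                rw [ENNReal.ofReal_mul (by positivity), ENNReal.ofReal_natCast]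
                gcongr
                exact hZ i
      _ = ENNReal.ofReal (∑ i ∈ Finset.range (J + 1), (i : ℝ) * (2 * Λ / 2 ^ i)) := by
          rw [ENNReal.ofReal_sum_of_nonneg]
          intro i _
          positivity
      _ ≤ ENNReal.ofReal (4 * Λ) := by
          apply ENNReal.ofReal_le_ofReal
          have : ∑ i ∈ Finset.range (J + 1), (i : ℝ) * (2 * Λ / 2 ^ i)
              = 2 * Λ * ∑ i ∈ Finset.range (J + 1), (i : ℝ) / 2 ^ i := by
            rw [Finset.mul_sum]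
            refine Finset.sum_congr rfl fun i _ => ?_
            ring
          rw [this, sum_div_two_pow]
          have h2 : (0 : ℝ) ≤ 2 * (((J + 1 : ℕ) : ℝ) + 1) / 2 ^ (J + 1) := by positivity
          nlinarith
  rw [Real.volume_Icc] at hvol
  have h3 := hvol.trans h1
  rw [ENNReal.ofReal_le_ofReal_iff (by linarith)] at h3
  linarith

theorem growth_step {Y w : ℤ → ℝ} (hR : Rec Y w) (c : ℝ) (hc : 0 < c)
    (hw : ∀ n : ℤ, 1 ≤ n → c ≤ w n) (L : ℕ) (hL : 1 ≤ L) (hLc : 2 ≤ ((L : ℝ) - 1) * c)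
    (m : ℝ) (hm : 0 < m) (C : ℝ) (hC : (L : ℝ) + 1 ≤ C)
    (hpos : ∀ n : ℤ, |(n : ℝ) - C| ≤ L → m ≤ Y n)
    (hsign : (∀ n : ℤ, |(n : ℝ) - 2 * C| ≤ 2 * L - 1 → 0 ≤ Y n) ∨
      (∀ n : ℤ, |(n : ℝ) - 2 * C| ≤ 2 * L - 1 → Y n ≤ 0)) :
    (∀ n : ℤ, |(n : ℝ) - 2 * C| ≤ L → 2 * m ≤ Y n) ∨
      (∀ n : ℤ, |(n : ℝ) - 2 * C| ≤ L → Y n ≤ - (2 * m)) := by
  have hL1 : (1 : ℝ) ≤ L := by exact_mod_cast hL
  have step : ∀ k : ℤ, |(k : ℝ) - 2 * C| ≤ 2 * L - 1 → Y k ≤ Y (k - 1) - c * m := by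
    intro k hk
    rw [abs_le] at hk
    have hk2 : (2 : ℤ) ≤ k := by
      have : (2 : ℝ) ≤ (k : ℝ) := by linarith [hk.1]
      exact_mod_cast this
    have hdiv : (2 * ((k / 2 : ℤ) : ℝ) = k) ∨ (2 * ((k / 2 : ℤ) : ℝ) = k - 1) := by
      rcases Int.emod_two_eq_zero_or_one k with h | h
      · left
        have : 2 * (k / 2) = k := by omega
        exact_mod_cast this
      · right
        have : 2 * (k / 2) = k - 1 := by omega
        exact_mod_cast this
    have hwin : |((k / 2 : ℤ) : ℝ) - C| ≤ L := by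
      rw [abs_le]
      rcases hdiv with h | h
      · constructor <;> linarith [hk.1, hk.2]
      · constructor <;> linarith [hk.1, hk.2]
    have h1 := hpos (k / 2) hwin
    have h2 := hw (k / 2) (by omega)
    rw [hR k hk2]
    have : c * m ≤ w (k / 2) * Y (k / 2) := mul_le_mul h2 h1 hm.le (le_trans hc.le h2)
    linarith
  have multi : ∀ d : ℕ, ∀ n : ℤ, 2 * C - (2 * L - 1) ≤ (n : ℝ) + 1 → (n : ℝ) + d ≤ 2 * C + (2 * L - 1) →
      Y (n + d) ≤ Y n - d * (c * m) := by
    intro d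
    induction d with
    | zero => intro n _ _; simp
    | succ d ih =>
      intro n h1 h2
      have h3 := ih n h1 (by push_cast at h2; linarith)
      have h4 := step (n + ((d + 1 : ℕ) : ℤ)) (by
        rw [abs_le]; push_cast at h2 ⊢
        constructor
        · have : (0 : ℝ) ≤ d := Nat.cast_nonneg d
          linarith
        · linarith)
      have e : n + ((d + 1 : ℕ) : ℤ) - 1 = n + d := by push_cast; ring
      rw [e] at h4
      push_cast at h4 ⊢
      linarith
  have hd : ((L - 1 : ℕ) : ℝ) = (L : ℝ) - 1 := by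
    rw [Nat.cast_sub hL]; simp
  have hgrow : 2 * m ≤ ((L - 1 : ℕ) : ℝ) * (c * m) := by
    rw [hd, ← mul_assoc]
    exact mul_le_mul_of_nonneg_right hLc hm.le
  rcases hsign with hs | hs
  · left
    intro n hn
    rw [abs_le] at hn
    have h1 := multi (L - 1) n (by linarith [hn.1]) (by rw [hd]; linarith [hn.2])
    have h2 := hs (n + ((L - 1 : ℕ) : ℤ)) (by
      rw [abs_le]; push_cast; rw [hd]; constructor <;> linarith [hn.1, hn.2])
    linarith
  · right
    intro n hn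
    rw [abs_le] at hn
    have h1 := multi (L - 1) (n - ((L - 1 : ℕ) : ℤ)) (by push_cast; rw [hd]; linarith [hn.1])
      (by push_cast; rw [hd]; linarith [hn.2])
    have h2 := hs (n - ((L - 1 : ℕ) : ℤ)) (by
      rw [abs_le]; push_cast; rw [hd]; constructor <;> linarith [hn.1, hn.2])
    rw [sub_add_cancel] at h1
    linarith

/-- Main abstract theorem: a solution with `Y 1 ≠ 0` is unbounded as soon as the weights stay away
from zero. -/
theorem unbounded {Y w : ℤ → ℝ} (hR : Rec Y w) (c : ℝ) (hc : 0 < c)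
    (hw : ∀ n : ℤ, 1 ≤ n → c ≤ w n) (h1 : Y 1 ≠ 0) (M : ℝ) : ∃ n : ℤ, 1 ≤ n ∧ M < |Y n| := by
  have hw0 : ∀ n : ℤ, 1 ≤ n → 0 < w n := fun n hn => lt_of_lt_of_le hc (hw n hn)
  obtain ⟨L0, hL0⟩ := exists_nat_gt (2 / c)
  set L : ℕ := L0 + 2 with hLdef
  have hL1 : 1 ≤ L := by omega
  have hLc : 2 ≤ ((L : ℝ) - 1) * c := by
    have : (L : ℝ) = L0 + 2 := by rw [hLdef]; push_cast; ring
    rw [this]
    have h2 : 2 < (L0 : ℝ) * c := by rwa [div_lt_iff₀ hc] at hL0
    nlinarith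
  have hLr : (1 : ℝ) ≤ (L : ℝ) := by exact_mod_cast hL1
  obtain ⟨a, b, ha, hab, hrun⟩ := long_runs hR hw0 h1 (12 * L + 1)
  have hab' : a ≤ b := by push_cast at hab; omega
  have habr : (a : ℝ) + (12 * L + 1) ≤ b := by exact_mod_cast hab
  have har : (1 : ℝ) ≤ a := by exact_mod_cast ha
  -- minimal absolute value on the base run
  obtain ⟨m, hm, hmle⟩ : ∃ m : ℝ, 0 < m ∧ ∀ n, a ≤ n → n ≤ b → m ≤ |Y n| := by
    have hne : (Finset.Icc a b).Nonempty := ⟨a, Finset.mem_Icc.2 ⟨le_rfl, hab'⟩⟩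
    obtain ⟨n0, hn0, hmin⟩ := Finset.exists_min_image (Finset.Icc a b) (fun n => |Y n|) hne
    rw [Finset.mem_Icc] at hn0
    refine ⟨|Y n0|, ?_, fun n h2 h3 => hmin n (Finset.mem_Icc.2 ⟨h2, h3⟩)⟩
    rw [abs_pos]
    rcases hrun with h | h
    · exact (h n0 hn0.1 hn0.2).ne'
    · exact (h n0 hn0.1 hn0.2).ne
  -- cuts
  choose Z hZc hZs using fun i => cuts hR hw0 a b ha hab' hrun i
  obtain ⟨J, hJ⟩ := pow_unbounded_of_one_lt (M / m) (one_lt_two)
  have hJ' : M < 2 ^ J * m := by rwa [div_lt_iff₀ hm] at hJ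
  obtain ⟨x, hx1, hx2, hx3⟩ := exists_center J Z hZc (2 * L) ((a : ℝ) + 2 * L) ((b : ℝ) - 2 * L)
    (by linarith) (by linarith)
  have main : ∀ i, i ≤ J →
      ((∀ n : ℤ, |(n : ℝ) - 2 ^ i * x| ≤ L → 2 ^ i * m ≤ Y n) ∨
      (∀ n : ℤ, |(n : ℝ) - 2 ^ i * x| ≤ L → Y n ≤ - (2 ^ i * m))) := by
    intro i
    induction i with
    | zero =>
      intro _
      simp only [pow_zero, one_mul]
      have hin : ∀ n : ℤ, |(n : ℝ) - x| ≤ L → a ≤ n ∧ n ≤ b := by
        intro n hn
        rw [abs_le] at hn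
        constructor
        · have : (a : ℝ) ≤ n := by linarith [hn.1]
          exact_mod_cast this
        · have : (n : ℝ) ≤ b := by linarith [hn.2]
          exact_mod_cast this
      rcases hrun with h | h
      · left
        intro n hn
        obtain ⟨g1, g2⟩ := hin n hn
        have := hmle n g1 g2
        rwa [abs_of_pos (h n g1 g2)] at this
      · right
        intro n hn
        obtain ⟨g1, g2⟩ := hin n hn
        have := hmle n g1 g2
        rw [abs_of_neg (h n g1 g2)] at this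
        linarith
    | succ i ih =>
      intro hi
      have hp : (1 : ℝ) ≤ 2 ^ i := one_le_pow₀ (by norm_num)
      have hp' : (1 : ℝ) ≤ 2 ^ (i + 1) := one_le_pow₀ (by norm_num)
      have e2 : (2 : ℝ) ^ (i + 1) * x = 2 * (2 ^ i * x) := by ring
      have e3 : (2 : ℝ) ^ (i + 1) * m = 2 * (2 ^ i * m) := by ring
      have hC : (L : ℝ) + 1 ≤ 2 ^ i * x := by nlinarith
      -- constant weak sign on the large window
      have hsign : (∀ n : ℤ, |(n : ℝ) - 2 * (2 ^ i * x)| ≤ 2 * L - 1 → 0 ≤ Y n) ∨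
          (∀ n : ℤ, |(n : ℝ) - 2 * (2 ^ i * x)| ≤ 2 * L - 1 → Y n ≤ 0) := by
        rw [← e2]
        set C : ℝ := 2 ^ (i + 1) * x with hCdef
        have hu : (2 : ℤ) ^ (i + 1) * (a - 1) + 1 ≤ ⌈C - (2 * L - 1)⌉ := by
          have : ((2 ^ (i + 1) * (a - 1) + 1 : ℤ) : ℝ) ≤ (⌈C - (2 * L - 1)⌉ : ℝ) := by
            refine le_trans ?_ (Int.le_ceil _)
            push_cast
            rw [hCdef]
            nlinarith
          exact_mod_cast this
        have hv : ⌊C + (2 * L - 1)⌋ ≤ (2 : ℤ) ^ (i + 1) * (b + 1) - 1 := by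
          have : (⌊C + (2 * L - 1)⌋ : ℝ) ≤ ((2 ^ (i + 1) * (b + 1) - 1 : ℤ) : ℝ) := by
            refine le_trans (Int.floor_le _) ?_
            push_cast
            rw [hCdef]
            nlinarith
          exact_mod_cast this
        have huv : ⌈C - (2 * L - 1)⌉ ≤ ⌊C + (2 * L - 1)⌋ := by
          rw [Int.le_floor]
          have := Int.ceil_lt_add_one (C - (2 * L - 1))
          linarith
        have hnc : ∀ z ∈ Z (i + 1), ¬ (⌈C - (2 * L - 1)⌉ ≤ z ∧ z < ⌊C + (2 * L - 1)⌋) := by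
          rintro z hz ⟨g1, g2⟩
          have g3 := hx3 (i + 1) hi z hz
          rw [← hCdef] at g3
          have g4 : C - (2 * L - 1) ≤ (z : ℝ) := Int.ceil_le.1 g1
          have g5 : (z : ℝ) + 1 ≤ C + (2 * L - 1) := by
            have : z + 1 ≤ ⌊C + (2 * L - 1)⌋ := by omega
            have := Int.le_floor.1 this
            push_cast at this
            exact this
          have g6 : |C - ((z : ℝ) + 1 / 2)| < 2 * L := by
            rw [abs_lt]; constructor <;> linarith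
          linarith
        rcases hZs (i + 1) _ _ hu huv hv hnc with h | h
        · left
          intro n hn
          rw [abs_le] at hn
          exact h n (Int.ceil_le.2 (by linarith [hn.1])) (Int.le_floor.2 (by linarith [hn.2]))
        · right
          intro n hn
          rw [abs_le] at hn
          exact h n (Int.ceil_le.2 (by linarith [hn.1])) (Int.le_floor.2 (by linarith [hn.2]))
      rw [e2, e3]
      rcases ih (by omega) with h | h
      · exact growth_step hR c hc hw L hL1 hLc (2 ^ i * m) (by positivity) (2 ^ i * x) hC h hsign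
      · have := growth_step hR.neg c hc hw L hL1 hLc (2 ^ i * m) (by positivity) (2 ^ i * x) hC
          (fun n hn => by have := h n hn; show 2 ^ i * m ≤ - Y n; linarith)
          (by
            rcases hsign with h' | h'
            · right; intro n hn; have := h' n hn; show - Y n ≤ 0; linarith
            · left; intro n hn; have := h' n hn; show 0 ≤ - Y n; linarith)
        rcases this with h' | h'
        · right; intro n hn
          have : 2 * (2 ^ i * m) ≤ - Y n := h' n hn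
          linarith
        · left; intro n hn
          have : - Y n ≤ - (2 * (2 ^ i * m)) := h' n hn
          linarith
  have hp : (1 : ℝ) ≤ 2 ^ J := one_le_pow₀ (by norm_num)
  have hfl : |((⌊(2 : ℝ) ^ J * x⌋ : ℤ) : ℝ) - 2 ^ J * x| ≤ L := by
    have g1 := Int.floor_le ((2 : ℝ) ^ J * x)
    have g2 := Int.lt_floor_add_one ((2 : ℝ) ^ J * x)
    rw [abs_le]; constructor <;> linarith
  refine ⟨⌊(2 : ℝ) ^ J * x⌋, ?_, ?_⟩
  · rw [Int.le_floor]
    push_cast
    nlinarith
  · rcases main J le_rfl with h | h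
    · have := h _ hfl
      exact lt_of_lt_of_le (lt_of_lt_of_le hJ' this) (le_abs_self _)
    · have := h _ hfl
      have h2 : 2 ^ J * m ≤ - Y ⌊(2 : ℝ) ^ J * x⌋ := by linarith
      exact lt_of_lt_of_le (lt_of_lt_of_le hJ' h2) (neg_le_abs _)

end Pool.Agent.Lib.MP_1375b8_an
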