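import Mathlib
import Pool.Agent.Lib.MP_1375b8_an.Growth

set_option autoImplicit false

namespace Pool.Agent.Lib.MP_1375b8_an

/-- `y` solves the recursion
`y_{2n+1} = y_{2n} + μ (1 - e^{y_n})` for `n ≥ 0`, `y_{2n} = y_{2n-1} + μ (1 - e^{y_n})` for `n ≥ 1`. -/
def IsSolution (μ : ℝ) (y : ℕ → ℝ) : Prop :=
  (∀ n : ℕ, y (2 * n + 1) = y (2 * n) + μ * (1 - Real.exp (y n))) ∧
  (∀ n : ℕ, 1 ≤ n → y (2 * n) = y (2 * n - 1) + μ * (1 - Real.exp (y n)))

theorem rec_step {μ : ℝ} {y : ℕ → ℝ} (h : IsSolution μ y) (k : ℕ) (hk : 1 ≤ k) :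
    y k = y (k - 1) + μ * (1 - Real.exp (y (k / 2))) := by
  rcases Nat.even_or_odd' k with ⟨n, rfl | rfl⟩
  · have e : 2 * n / 2 = n := by omega
    rw [e]
    exact h.2 n (by omega)
  · have e : (2 * n + 1) / 2 = n := by omega
    rw [e]
    exact h.1 n

theorem zero_of_one {μ : ℝ} {y : ℕ → ℝ} (h : IsSolution μ y) (h1 : y 1 = 0) :
    ∀ n, 1 ≤ n → y n = 0 := by
  intro n
  induction n using Nat.strong_induction_on with
  | _ n ih =>
    intro hn
    rcases Nat.lt_or_ge n 2 with h2 | h2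
    · have : n = 1 := by omega
      rw [this]; exact h1
    · rw [rec_step h n hn, ih (n - 1) (by omega) (by omega), ih (n / 2) (by omega) (by omega)]
      simp

theorem weight_lower (C t : ℝ) (ht : |t| ≤ C) (h0 : t ≠ 0) :
    Real.exp (-C) ≤ (Real.exp t - 1) / t := by
  rw [abs_le] at ht
  rcases lt_or_gt_of_ne h0 with h | h
  · rw [le_div_iff_of_neg h]
    -- exp t - 1 ≤ exp (-C) * t
    have h1 : Real.exp (-C) ≤ Real.exp t := Real.exp_le_exp.2 ht.1
    have h2 : Real.exp t * t ≤ Real.exp (-C) * t := by nlinarith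
    have h3 : Real.exp t - 1 ≤ Real.exp t * t := by
      have h4 := Real.add_one_le_exp (-t)
      have h5 : Real.exp t * Real.exp (-t) = 1 := by rw [← Real.exp_add]; simp
      have h6 := Real.exp_pos t
      nlinarith
    linarith
  · rw [le_div_iff₀ h]
    have h1 : Real.exp (-C) ≤ 1 := by
      rw [Real.exp_le_one_iff]; linarith
    have h2 := Real.add_one_le_exp t
    nlinarith

theorem unbounded_of_ne {μ : ℝ} {y : ℕ → ℝ} (hμ : 0 < μ) (h : IsSolution μ y) (h1 : y 1 ≠ 0) :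
    ¬ ∃ C : ℝ, ∀ n, |y n| ≤ C := by
  classical
  rintro ⟨C, hC⟩
  let Y : ℤ → ℝ := fun n => y n.toNat
  let w : ℤ → ℝ := fun n => if Y n = 0 then μ else μ * ((Real.exp (Y n) - 1) / Y n)
  have hYC : ∀ n, |Y n| ≤ C := fun n => hC _
  have hC0 : 0 ≤ C := le_trans (abs_nonneg _) (hC 0)
  have hmul : ∀ n, w n * Y n = μ * (Real.exp (Y n) - 1) := by
    intro n
    by_cases hn : Y n = 0
    · simp [w, hn]
    · simp only [w, hn, if_false]
      field_simp
  have hR : Rec Y w := by
    intro k hk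
    rw [hmul]
    obtain ⟨j, rfl⟩ := Int.eq_ofNat_of_zero_le (show 0 ≤ k by omega)
    have hj : 2 ≤ j := by omega
    have e1 : ((j : ℤ) - 1).toNat = j - 1 := by omega
    have e2 : ((j : ℤ) / 2).toNat = j / 2 := by omega
    show y ((j : ℤ).toNat) = y (((j : ℤ) - 1).toNat) - μ * (Real.exp (y (((j : ℤ) / 2).toNat)) - 1)
    rw [e1, e2, Int.toNat_natCast, rec_step h j (by omega)]
    ring
  have hexp : Real.exp (-C) ≤ 1 := by rw [Real.exp_le_one_iff]; linarith
  have hw : ∀ n : ℤ, 1 ≤ n → μ * Real.exp (-C) ≤ w n := by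
    intro n _
    by_cases hn : Y n = 0
    · simp only [w, hn, if_true]
      nlinarith
    · simp only [w, hn, if_false]
      exact mul_le_mul_of_nonneg_left (weight_lower C (Y n) (hYC n) hn) hμ.le
  have hY1 : Y 1 ≠ 0 := h1
  obtain ⟨n, _, hn⟩ := unbounded hR (μ * Real.exp (-C)) (mul_pos hμ (Real.exp_pos _)) hw hY1 C
  exact absurd (hYC n) (not_le.2 hn)

/-- Full answer: for `μ > 0` a solution with `y 0 ≠ 0` is bounded exactly when
`μ = y 0 / (e^{y 0} - 1)`, and for every `y₀ > 0` there is such a `μ`, with `0 < μ < 1`, and a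
bounded solution starting from `y₀`. -/
theorem classification :
    (∀ (μ : ℝ) (y : ℕ → ℝ), 0 < μ → IsSolution μ y → y 0 ≠ 0 →
      ((∃ C : ℝ, ∀ n, |y n| ≤ C) ↔ μ = y 0 / (Real.exp (y 0) - 1))) ∧
    (∀ y₀ : ℝ, 0 < y₀ → ∃ (μ : ℝ) (y : ℕ → ℝ), 0 < μ ∧ μ < 1 ∧ IsSolution μ y ∧ y 0 = y₀ ∧
      ∃ C : ℝ, ∀ n, |y n| ≤ C) := by
  constructor
  · intro μ y hμ h h0
    have hexp : Real.exp (y 0) - 1 ≠ 0 := by
      intro hcon
      have : Real.exp (y 0) = 1 := by linarith
      rw [Real.exp_eq_one_iff] at this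
      exact h0 this
    have hy1 : y 1 = y 0 + μ * (1 - Real.exp (y 0)) := h.1 0
    have hiff : μ = y 0 / (Real.exp (y 0) - 1) ↔ y 1 = 0 := by
      rw [hy1, eq_div_iff hexp]
      constructor
      · intro h2; linarith
      · intro h2; linarith
    rw [hiff]
    constructor
    · intro hb
      by_contra hne
      exact unbounded_of_ne hμ h hne hb
    · intro hz
      refine ⟨|y 0|, fun n => ?_⟩
      rcases Nat.eq_zero_or_pos n with rfl | hn
      · exact le_rfl
      · rw [zero_of_one h hz n hn, abs_zero]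
        exact abs_nonneg _
  · intro y₀ hy₀
    have hexp : 0 < Real.exp y₀ - 1 := by
      have := Real.add_one_lt_exp hy₀.ne'
      linarith
    refine ⟨y₀ / (Real.exp y₀ - 1), fun n => if n = 0 then y₀ else 0, div_pos hy₀ hexp,
      (by rw [div_lt_one hexp]; linarith [Real.add_one_lt_exp hy₀.ne']), ⟨?_, ?_⟩,
      by simp, y₀, ?_⟩
    · intro n
      rcases Nat.eq_zero_or_pos n with rfl | hn
      · have h2 : y₀ + y₀ / (Real.exp y₀ - 1) * (1 - Real.exp y₀) = 0 := by
          field_simp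
          ring
        simp [h2]
      · have h3 : n ≠ 0 := by omega
        simp [h3]
    · intro n hn
      have h3 : n ≠ 0 := by omega
      have h4 : 2 * n - 1 ≠ 0 := by omega
      simp [h3, h4]
    · intro n
      by_cases hn : n = 0
      · simp only [hn, if_true]
        rw [abs_of_pos hy₀]
      · simp only [hn, if_false, abs_zero]
        exact hy₀.le

end Pool.Agent.Lib.MP_1375b8_an
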